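import Pool.Agent.Results.MP_c831ba_nt.LargerSquareSparse
import Pool.Agent.U513.AP.Sparse

/-!
# Two squares with equal radicals of `x` and `x + 1`, near integral polynomials at simultaneous approximations

The starting file bounds the number of the `n ≤ X` such that `n ^ 2` and a smaller positive square lie in one set `S (a)`. Here: for all
points `α` outside of a set of small Hausdorff dimension, NO `n` near an integral polynomial at an approximation of `α` with a large
denominator has this property.
-/

set_option autoImplicit false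

open Finset

namespace Pool.Agent.Results.MP_c831ba_nt.Approximations

open Pool.Agent.U513.AP
open Pool.Agent.Results.MP_c831ba_nt.LargerSquareSparse (S)

/-- The property there are no `a ≥ 1` and `1 ≤ m < n` such that `n ^ 2` and `m ^ 2` are in `S (a)` holds at approximations outside
of exceptional sets of exponent `3 / 4`. -/
theorem result : AtApproximations (ι := Unit) (3 / 4)
    (fun _ n => ∀ a m : ℕ, 1 ≤ a → 1 ≤ m → m < n → ¬ (n ^ 2 ∈ S a ∧ m ^ 2 ∈ S a)) := by
  classical
  refine sparse_law (by norm_num) _ fun _ ε hε => ?_
  obtain ⟨C, _, h⟩ := LargerSquareSparse.result ε hε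
  refine ⟨C, 1, fun X hX => ?_⟩
  obtain ⟨hfin, h1⟩ := h X hX
  refine (Nat.cast_le.2 (Set.ncard_le_ncard ?_ hfin)).trans h1
  rintro n ⟨hn1, hn2, hn3⟩
  push Not at hn3
  obtain ⟨a, m, h1, h2, h3, h4, h5⟩ := hn3
  exact ⟨⟨hn1, a, h1, h4, m, h2, h3, h5⟩, hn2⟩

end Pool.Agent.Results.MP_c831ba_nt.Approximations
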